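import Pool.Agent.helper34.DT.Spec

/-!
# Project sj, part P3 (helper34): lattices containing the periods, Abel-Jacobi maps, CM points

Curve `y^d = f(x) = ∏_{j ≤ n} (x - b_j)^{μ_j}`, `d` divides neither any `μ_j` nor `∑ μ_j`. Forms
`x^k ∏ (x - b_j)^{⌊r μ_j / d⌋} / y^r dx`, `r < d` prime to `d`, `(k + 1) d < ∑ (r μ_j mod d)`. If the `b_j` are nonzero with
distinct arguments (`Gen`), cut the plane along `b_j [1, ∞)`; `Y = Yb` is the `d`-th root of `f` given by principal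
powers, `F(x) = ∫_0^1 g(s x) x ds` (`FF`) the primitive of `g = gg` on the star shaped slit plane, `J_j = F(b_j)`.
The principal powers on the cut `j` are the limits from `{Im (x / b_j) ≤ 0}`; from the other side the limit of `Y`
is `ζ^{-μ_j} Y`, of `g` `ζ^{r μ_j} g`, of `F` `J_j + ζ^{r μ_j} (F - J_j)`. So the map
`(x, ζ^m Y(x)) ↦ ζ^m.(F(x) - J_0)` (`ζ^m.` multiplies the coordinate `(r, k)` by `ζ^{-m r}`) is well defined modulo the group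
`LamG` generated by all `ζ^m.(J_j - J_0)`, which has `φ(d) n = dim_ℝ W` generators and spans (maximum principle).

Every `XX_stmt : Prop` is a module `sj:XX`. File `Pool/Agent/<you>/SJ/XX.lean`, `import Pool.Agent.helper34.SJ.P3Spec`,
namespace `Pool.Agent.HC.SJ3`, `theorem XX (h : YY_stmt) ... : XX_stmt`; any other statement of this file (or of
`DT/Spec`, all proved) may be a hypothesis, except circularly; auxiliary lemmas are prefixed `XX_`.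
-/

namespace Pool.Agent.HC.SJ3

open Pool.Agent.HC Filter Topology
open scoped ComplexConjugate

noncomputable section

/-! ## Definitions -/

/-- `exp(2πi/d)` -/
def ze (d : ℕ) : ℂ := Complex.exp (2 * Real.pi * Complex.I / d)

/-- `f(x) = ∏ (x - b_j)^{μ_j}` -/
def fm {n : ℕ} (μ : Fin (n + 1) → ℕ) (b : Fin (n + 1) → ℂ) (x : ℂ) : ℂ := ∏ j, (x - b j) ^ μ j

/-- the branch of the `d`-th root of `f` with cuts `b_j [1, ∞)` -/
def Yb (d : ℕ) {n : ℕ} (μ : Fin (n + 1) → ℕ) (b : Fin (n + 1) → ℂ) (x : ℂ) : ℂ :=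
  (∏ j, (-b j) ^ μ j) ^ (1 / (d : ℂ)) * ∏ j, (1 - x / b j) ^ ((μ j : ℂ) / (d : ℂ))

/-- the coefficient of the form `(r, k)` at the point `(x, y)` -/
def om1 (d : ℕ) {n : ℕ} (μ : Fin (n + 1) → ℕ) (b : Fin (n + 1) → ℂ) (r k : ℕ) (x y : ℂ) : ℂ :=
  x ^ k * (∏ j, (x - b j) ^ (r * μ j / d)) / y ^ r

/-- the integrand on the branch `Yb` -/
def gg (d : ℕ) {n : ℕ} (μ : Fin (n + 1) → ℕ) (b : Fin (n + 1) → ℂ) (r k : ℕ) (x : ℂ) : ℂ :=
  om1 d μ b r k x (Yb d μ b x)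

/-- its primitive -/
def FF (d : ℕ) {n : ℕ} (μ : Fin (n + 1) → ℕ) (b : Fin (n + 1) → ℂ) (r k : ℕ) (x : ℂ) : ℂ :=
  ∫ s in (0 : ℝ)..1, gg d μ b r k (s * x) * x

/-- the plane minus the cuts -/
def Slit {n : ℕ} (b : Fin (n + 1) → ℂ) : Set ℂ := {x | ∀ j, 1 - x / b j ∈ Complex.slitPlane}

/-- nonzero branch points with distinct arguments -/
structure Gen {n : ℕ} (b : Fin (n + 1) → ℂ) : Prop where
  ne : ∀ j, b j ≠ 0
  arg : ∀ i j, i ≠ j → ∀ t : ℝ, 0 < t → b i ≠ t * b j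

/-- admissible form -/
structure Adm (d : ℕ) {n : ℕ} (μ : Fin (n + 1) → ℕ) (r k : ℕ) : Prop where
  d0 : 0 < d
  nd : ∀ j, ¬ d ∣ r * μ j
  hol : (k + 1) * d < ∑ j, (r * μ j) % d

/-! ## S. Functions of one variable -/

/-- YP: `Y^d = f` (`Complex.cpow_nat_mul`). -/
def YP_stmt : Prop := ∀ (d n : ℕ) (μ : Fin (n + 1) → ℕ) (b : Fin (n + 1) → ℂ), 0 < d →
  (∀ j, b j ≠ 0) → ∀ x, Yb d μ b x ^ d = fm μ b x

/-- YH: the slit plane is open and star shaped, contains `0`, no branch point, and `Y` and `g` are holomorphic on it. -/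
def YH_stmt : Prop := ∀ (d n : ℕ) (μ : Fin (n + 1) → ℕ) (b : Fin (n + 1) → ℂ), 0 < d →
  (∀ j, b j ≠ 0) → IsOpen (Slit b) ∧ (0 : ℂ) ∈ Slit b ∧ (∀ j, b j ∉ Slit b) ∧
    (∀ x ∈ Slit b, ∀ s : ℝ, 0 ≤ s → s ≤ 1 → (s : ℂ) * x ∈ Slit b) ∧
    DifferentiableOn ℂ (Yb d μ b) (Slit b) ∧ (∀ x ∈ Slit b, Yb d μ b x ≠ 0) ∧
    ∀ r k : ℕ, DifferentiableOn ℂ (gg d μ b r k) (Slit b)

/-- YS: a point which is neither in the slit plane nor a branch point is on exactly one open cut. -/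
def YS_stmt : Prop := ∀ (n : ℕ) (b : Fin (n + 1) → ℂ), Gen b → ∀ x : ℂ, x ∉ Slit b →
  ∃ (j : Fin (n + 1)) (t : ℝ), 1 ≤ t ∧ x = t * b j ∧ ∀ i, i ≠ j → 1 - x / b i ∈ Complex.slitPlane

/-- YL: one-sided limits of `Y` and `g` at a point of an open cut. Only the factor `j` is not continuous there:
`Complex.continuousWithinAt_arg_of_re_neg_of_im_zero`, `Complex.tendsto_arg_nhdsWithin_im_neg_of_re_neg_of_im_zero`;
`(1 - x/b_j)^{μ_j/d} = exp((μ_j/d) log)`, the logarithm jumps by `2πi`. -/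
def YL_stmt : Prop := ∀ (d n : ℕ) (μ : Fin (n + 1) → ℕ) (b : Fin (n + 1) → ℂ), 0 < d → Gen b →
  ∀ (j : Fin (n + 1)) (t : ℝ), 1 < t →
  Tendsto (Yb d μ b) (𝓝[{x | (x / b j).im ≤ 0}] (t * b j)) (𝓝 (Yb d μ b (t * b j))) ∧
  Tendsto (Yb d μ b) (𝓝[{x | 0 < (x / b j).im}] (t * b j))
    (𝓝 (ze d ^ (-(μ j : ℤ)) * Yb d μ b (t * b j))) ∧
  ∀ r k : ℕ,
  Tendsto (gg d μ b r k) (𝓝[{x | (x / b j).im ≤ 0}] (t * b j)) (𝓝 (gg d μ b r k (t * b j))) ∧
  Tendsto (gg d μ b r k) (𝓝[{x | 0 < (x / b j).im}] (t * b j))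
    (𝓝 (ze d ^ (r * μ j) * gg d μ b r k (t * b j)))

/-- LR: local roots and primitives (`f` is nonzero on a small ball; a root of a nonvanishing holomorphic function on
a ball near a point: `y₀ (f(x)/f(x₀))^{1/d}` with the principal power on `|f(x)/f(x₀) - 1| < 1`; primitives on balls:
`DifferentiableOn.isExactOn_ball`). -/
def LR_stmt : Prop := ∀ (d n : ℕ) (μ : Fin (n + 1) → ℕ) (b : Fin (n + 1) → ℂ), 0 < d →
  ∀ x₀ y₀ : ℂ, fm μ b x₀ ≠ 0 → y₀ ^ d = fm μ b x₀ →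
  ∃ ρ > 0, ∃ η : ℂ → ℂ, DifferentiableOn ℂ η (Metric.ball x₀ ρ) ∧ η x₀ = y₀ ∧
    (∀ x ∈ Metric.ball x₀ ρ, fm μ b x ≠ 0 ∧ η x ^ d = fm μ b x) ∧
    ∀ r k : ℕ, ∃ φ : ℂ → ℂ, ∀ x ∈ Metric.ball x₀ ρ, HasDerivAt φ (om1 d μ b r k x (η x)) x

/-- GB: majorant along rays. `|g(x)| = |x|^k ∏ |x - b_j|^{-α_j}`, `α_j = ((r μ_j) mod d)/d ∈ (0,1)`, `∑ α_j > k + 1` (YP). For `v` near
`u`, `|σ v - b_j| ≥ |σ - |b_j||` if `u = b_j/|b_j|` (at most one `j`), `≥ c (1 + σ)` otherwise. -/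
def GB_stmt : Prop := ∀ (d n : ℕ) (μ : Fin (n + 1) → ℕ) (b : Fin (n + 1) → ℂ) (r k : ℕ), Gen b →
  Adm d μ r k → ∀ u : ℂ, ‖u‖ = 1 → ∃ ε > 0, ∃ G : ℝ → ℝ,
    MeasureTheory.IntegrableOn G (Set.Ioi 0) ∧
    ∀ σ ∈ Set.Ioi (0 : ℝ), (∀ j, σ ≠ ‖b j‖) → ∀ v : ℂ, ‖v‖ = 1 → ‖v - u‖ < ε →
      ‖gg d μ b r k (σ * v)‖ ≤ G σ

/-- GM: integrability along rays (measurability of `g` and GB). -/
def GM_stmt : Prop := ∀ (d n : ℕ) (μ : Fin (n + 1) → ℕ) (b : Fin (n + 1) → ℂ) (r k : ℕ), Gen b →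
  Adm d μ r k → Measurable (gg d μ b r k) ∧ ∀ v : ℂ, ‖v‖ = 1 →
    MeasureTheory.IntegrableOn (fun σ : ℝ => gg d μ b r k (σ * v)) (Set.Ioi 0)

/-- FR: `F` along a ray (substitution `σ = s ρ`). -/
def FR_stmt : Prop := ∀ (d n : ℕ) (μ : Fin (n + 1) → ℕ) (b : Fin (n + 1) → ℂ) (r k : ℕ) (ρ : ℝ)
  (v : ℂ), 0 ≤ ρ → FF d μ b r k (ρ * v) = ∫ σ in (0 : ℝ)..ρ, gg d μ b r k (σ * v) * v

/-- FD: `F` is a primitive of `g` on the slit plane: differentiate under the integral sign,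
`d/dx (g(sx) x) = g(sx) + s x g'(sx) = d/ds (s g(sx))`. -/
def FD_stmt : Prop := ∀ (d n : ℕ) (μ : Fin (n + 1) → ℕ) (b : Fin (n + 1) → ℂ) (r k : ℕ), 0 < d →
  (∀ j, b j ≠ 0) → ∀ x ∈ Slit b, HasDerivAt (FF d μ b r k) (gg d μ b r k x) x

/-- FB: `F` is bounded (FR, GB, GM, compactness of the unit circle). -/
def FB_stmt : Prop := ∀ (d n : ℕ) (μ : Fin (n + 1) → ℕ) (b : Fin (n + 1) → ℂ) (r k : ℕ), Gen b →
  Adm d μ r k → ∃ C : ℝ, ∀ x, ‖FF d μ b r k x‖ ≤ C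

/-- FL: one-sided limits of `F` at a point `t b_j` of a closed cut: `F(x) = ∫_0^∞ 1_{σ ≤ |x|} g(σ v) v dσ`, `v = x/|x|` (FR), dominated
convergence (GB); `(σ v / b_j).im` has the sign of `(x / b_j).im`; pointwise limits for `σ ≠ |b_j|, |t b_j|`: continuity of
`g` on the slit plane (YH) for `σ < |b_j|`, YL for `σ > |b_j|`. -/
def FL_stmt : Prop := ∀ (d n : ℕ) (μ : Fin (n + 1) → ℕ) (b : Fin (n + 1) → ℂ) (r k : ℕ), Gen b →
  Adm d μ r k → ∀ (j : Fin (n + 1)) (t : ℝ), 1 ≤ t →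
  Tendsto (FF d μ b r k) (𝓝[{x | (x / b j).im ≤ 0}] (t * b j)) (𝓝 (FF d μ b r k (t * b j))) ∧
  Tendsto (FF d μ b r k) (𝓝[{x | 0 < (x / b j).im}] (t * b j))
    (𝓝 (FF d μ b r k (b j) + ze d ^ (r * μ j) * (FF d μ b r k (t * b j) - FF d μ b r k (b j))))

/-! ## V. Vectors of forms -/

/-- conditions on the weights -/
structure Wt (d : ℕ) {n : ℕ} (μ : Fin (n + 1) → ℕ) : Prop where
  d3 : 3 ≤ d
  nd : ∀ j, ¬ d ∣ μ j
  nds : ¬ d ∣ ∑ j, μ j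

/-- `I` indexes exactly the pairs `(r, k)`: `r < d` prime to `d`, `(k + 1) d < ∑ (r μ_j mod d)` -/
structure Full (d : ℕ) {n : ℕ} (μ : Fin (n + 1) → ℕ) {I : Type} (R K : I → ℕ) : Prop where
  lt : ∀ i, R i < d
  cop : ∀ i, Nat.Coprime (R i) d
  hol : ∀ i, (K i + 1) * d < ∑ j, (R i * μ j) % d
  inj : ∀ i i', R i = R i' → K i = K i' → i = i'
  ex : ∀ r k : ℕ, r < d → Nat.Coprime r d → (k + 1) * d < ∑ j, (r * μ j) % d → ∃ i, R i = r ∧ K i = k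

/-- the vector of the forms at `(x, y)` -/
def omv (d : ℕ) {n : ℕ} (μ : Fin (n + 1) → ℕ) (b : Fin (n + 1) → ℂ) {I : Type} (R K : I → ℕ)
    (x y : ℂ) : I → ℂ := fun i => om1 d μ b (R i) (K i) x y

/-- the vector of the primitives -/
def FV (d : ℕ) {n : ℕ} (μ : Fin (n + 1) → ℕ) (b : Fin (n + 1) → ℂ) {I : Type} (R K : I → ℕ)
    (x : ℂ) : I → ℂ := fun i => FF d μ b (R i) (K i) x

/-- `ζ^m.`: multiplication of the coordinate `(r, k)` by `ζ^{-m r}` -/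
def zac (d : ℕ) {I : Type} (R : I → ℕ) (m : ℤ) (w : I → ℂ) : I → ℂ :=
  fun i => ze d ^ (-(m * (R i : ℤ))) * w i

/-- the group generated by all `ζ^m.(J_j - J_0)` -/
def LamG (d : ℕ) {n : ℕ} (μ : Fin (n + 1) → ℕ) (b : Fin (n + 1) → ℂ) {I : Type} (R K : I → ℕ) :
    AddSubgroup (I → ℂ) :=
  AddSubgroup.closure {w | ∃ (m : ℤ) (j : Fin (n + 1)),
    w = zac d R m (fun i => FV d μ b R K (b j) i - FV d μ b R K (b 0) i)}

/-- local lift of the Abel-Jacobi map at `(x₀, y₀)` -/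
def LiftAt (d : ℕ) {n : ℕ} (μ : Fin (n + 1) → ℕ) (b : Fin (n + 1) → ℂ) {I : Type} [Fintype I]
    (R K : I → ℕ) (x₀ y₀ : ℂ) : Prop :=
  ∃ ρ > 0, ∃ (η : ℂ → ℂ) (φ : ℂ → (I → ℂ)), η x₀ = y₀ ∧ ContinuousOn η (Metric.ball x₀ ρ) ∧
    ∀ x ∈ Metric.ball x₀ ρ, fm μ b x ≠ 0 ∧ η x ^ d = fm μ b x ∧
      HasDerivAt φ (omv d μ b R K x (η x)) x ∧
      ∀ m : ℤ, η x = ze d ^ m * Yb d μ b x →
        (fun i => zac d R m (fun i => FV d μ b R K x i - FV d μ b R K (b 0) i) i - φ x i) ∈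
          LamG d μ b R K

/-- HC: on a convex open subset of the slit plane (or: any connected open subset) a continuous `d`-th
root of `f` is `ζ^m Y` (the quotient is continuous with values in the `d`-th roots of unity). Uses YP, YH. -/
def HC_stmt : Prop := ∀ (d n : ℕ) (μ : Fin (n + 1) → ℕ) (b : Fin (n + 1) → ℂ), 0 < d →
  (∀ j, b j ≠ 0) → ∀ U : Set ℂ, IsOpen U → Convex ℝ U → U ⊆ Slit b → ∀ η : ℂ → ℂ,
  ContinuousOn η U → (∀ x ∈ U, η x ^ d = fm μ b x) → ∃ m : ℤ, ∀ x ∈ U, η x = ze d ^ m * Yb d μ b x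

/-- HD: on a convex open subset of the slit plane a primitive of the forms on the sheet `ζ^m Y` is
`ζ^m.F` up to a constant (FD; derivative zero on a convex set). -/
def HD_stmt : Prop := ∀ (d n : ℕ) (μ : Fin (n + 1) → ℕ) (b : Fin (n + 1) → ℂ), 0 < d →
  (∀ j, b j ≠ 0) → ∀ U : Set ℂ, IsOpen U → Convex ℝ U → U ⊆ Slit b → ∀ (I : Type) [Fintype I]
  (R K : I → ℕ) (m : ℤ) (φ : ℂ → (I → ℂ)),
  (∀ x ∈ U, HasDerivAt φ (omv d μ b R K x (ze d ^ m * Yb d μ b x)) x) →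
  ∃ c : I → ℂ, ∀ x ∈ U, ∀ i, zac d R m (FV d μ b R K x) i - φ x i = c i

/-- LS: lifts at points of the slit plane (a ball in the slit plane, LR, HC, HD; normalise
`φ(x₀) = ζ^m.(F(x₀) - J_0)`; `η x = ζ^{m'} Y(x)` forces `ζ^{m'} = ζ^m`). -/
def LS_stmt : Prop := ∀ (d n : ℕ) (μ : Fin (n + 1) → ℕ) (b : Fin (n + 1) → ℂ), Wt d μ → Gen b →
  ∀ (I : Type) [Fintype I] (R K : I → ℕ), (∀ i, R i < d ∧ Adm d μ (R i) (K i)) →
  ∀ x₀ y₀ : ℂ, x₀ ∈ Slit b → y₀ ^ d = fm μ b x₀ → LiftAt d μ b R K x₀ y₀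

/-- LC: lifts at points of the open cuts. A ball `B` around `x₀ = t b_j` (LR), small: off the other cuts and off `b_j`. On the
convex open halves `B± = {±Im(x/b_j) > 0}` (in the slit plane) `η = ζ^{m±} Y` (HC), and at `x₀` (YL): `m+ = m- + μ_j` modulo
`d`; on the cut the sheet is `m-` (YL). On `B±`, `φ = ζ^{m±}.F - c±` (HD), also on the cut with `m-` (FL at every point of the
cut). Normalise `c- = ζ^{m-}.J_0`; the limits at `x₀` (FL) give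
`ζ^{m+}.(F⁺ - J_0) - ζ^{m-}.(F(x₀) - J_0) = ζ^{m+}.(J_j - J_0) - ζ^{m-}.(J_j - J_0) ∈ LamG`, so `c+ - ζ^{m+}.J_0 ∈ LamG`. -/
def LC_stmt : Prop := ∀ (d n : ℕ) (μ : Fin (n + 1) → ℕ) (b : Fin (n + 1) → ℂ), Wt d μ → Gen b →
  ∀ (I : Type) [Fintype I] (R K : I → ℕ), (∀ i, R i < d ∧ Adm d μ (R i) (K i)) →
  ∀ (j : Fin (n + 1)) (t : ℝ), 1 < t → ∀ y₀ : ℂ, y₀ ^ d = fm μ b (t * b j) →
  LiftAt d μ b R K (t * b j) y₀

/-- LL: lifts everywhere (YS, LS, LC; `f(b_j) = 0` since `μ_j ≠ 0`). -/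
def LL_stmt : Prop := ∀ (d n : ℕ) (μ : Fin (n + 1) → ℕ) (b : Fin (n + 1) → ℂ), Wt d μ → Gen b →
  ∀ (I : Type) [Fintype I] (R K : I → ℕ), (∀ i, R i < d ∧ Adm d μ (R i) (K i)) →
  ∀ x₀ y₀ : ℂ, fm μ b x₀ ≠ 0 → y₀ ^ d = fm μ b x₀ → LiftAt d μ b R K x₀ y₀

/-- AA: `Full` indices are admissible, closed downwards in `k`. -/
def AA_stmt : Prop := ∀ (d n : ℕ) (μ : Fin (n + 1) → ℕ), Wt d μ → ∀ (I : Type) (R K : I → ℕ),
  Full d μ R K → (∀ i, R i < d ∧ Adm d μ (R i) (K i)) ∧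
    ∀ i, ∀ k ≤ K i, ∃ i', R i' = R i ∧ K i' = k

/-! ## G. Rank -/

/-- GC: `2 |I| = φ(d) n`. For `r` prime to `d` the number of `k` is `p_r = ⌊A_r/d⌋`, `A_r = ∑ (r μ_j mod d)`, `d ∤ A_r` (as
`A_r ≡ r ∑ μ_j`), and `A_r + A_{d-r} = (n + 1) d`, so `p_r + p_{d-r} = n`. -/
def GC_stmt : Prop := ∀ (d n : ℕ) (μ : Fin (n + 1) → ℕ), Wt d μ → ∀ (I : Type) [Fintype I]
  (R K : I → ℕ), Full d μ R K → 2 * Fintype.card I = Nat.totient d * n

/-- GY: `ζ^m.w` is an integral combination of the `ζ^i.w`, `0 ≤ i < φ(d)` (the cyclotomic polynomial is monic with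
integer coefficients and kills the operator `ζ.`, whose eigenvalues are primitive `d`-th roots of unity). -/
def GY_stmt : Prop := ∀ (d : ℕ), 0 < d → ∀ (I : Type) (R : I → ℕ), (∀ i, Nat.Coprime (R i) d) →
  ∀ (w : I → ℂ) (m : ℤ), zac d R m w ∈
    AddSubgroup.closure {v | ∃ i : ℕ, i < Nat.totient d ∧ v = zac d R i w}

/-- GS: `LamG` is generated by at most `dim_ℝ W` elements (`ζ^i.(J_j - J_0)`, `i < φ(d)`, `j ≠ 0`). Uses GC, GY. -/
def GS_stmt : Prop := ∀ (d n : ℕ) (μ : Fin (n + 1) → ℕ) (b : Fin (n + 1) → ℂ), Wt d μ →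
  ∀ (I : Type) [Fintype I] (R K : I → ℕ), Full d μ R K → ∃ S : Finset (I → ℂ),
    S.card ≤ 2 * Fintype.card I ∧ LamG d μ b R K = AddSubgroup.closure (S : Set (I → ℂ))

/-- GL: a group generated by at most `dim_ℝ` elements which spans is a lattice (`S` is a basis; coordinates). -/
def GL_stmt : Prop := ∀ (I : Type) [Fintype I] (S : Finset (I → ℂ)),
  S.card ≤ 2 * Fintype.card I →
  Submodule.span ℝ ((AddSubgroup.closure (S : Set (I → ℂ)) : AddSubgroup (I → ℂ)) : Set (I → ℂ)) = ⊤ →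
  IsLattice (AddSubgroup.closure (S : Set (I → ℂ)))

/-! ## M. Maximum principle -/

/-- MP: Liouville theorem. Suppose `A = sup M > 0`, `e ∈ E`, `M < A/2` on the closed ball of radius `ρ` around `e`. For `ε > 0`,
`h(x) = M(x) - ε log(|x - e|/ρ)` on `{|x - e| ≥ ρ}` tends to `-∞`. If its maximum is `> A/2 > 0` it is attained neither on the circle
nor on `E`; the set where it is attained is compact and open (at such a point `Re(Φ(x) - ε log(x - e))`, i.e. the absolute value of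
`exp(Φ(x)) (x - e)^{-ε}`, has a local maximum, so is locally constant: `Complex.eventually_eq_of_isLocalMax_norm`) and nonempty:
impossible. So `M(x) ≤ A/2 + ε log(|x - e|/ρ)`; `ε → 0`. -/
def MP_stmt : Prop := ∀ (M : ℂ → ℝ) (E : Finset ℂ), Continuous M → (∃ C, ∀ x, M x ≤ C) →
  E.Nonempty → (∀ e ∈ E, M e = 0) →
  (∀ x₀, x₀ ∉ E → ∃ ρ > 0, ∃ Φ : ℂ → ℂ, DifferentiableOn ℂ Φ (Metric.ball x₀ ρ) ∧
    (Φ x₀).re = M x₀ ∧ ∀ x ∈ Metric.ball x₀ ρ, (Φ x).re ≤ M x) → ∀ x, M x ≤ 0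

/-- MA: a real form `l` on `W` which vanishes on `LamG` is nonpositive on all `ζ^m.(F(x) - J_0)`. Let
`M(x)` be the maximum over `m` (mod `d`). At `x₀` with `f(x₀) ≠ 0`: by LiftAt, near `x₀` the values are `l(φ_y(x))`, `y` the `d` roots of
`f(x₀)`, so `M` is continuous there and MP's hypothesis holds with `Φ = ` the complex linear form with real part `l`
applied to `φ_y`, `y` the root where the maximum at `x₀` is attained. At `b_j`: `F` is continuous (FL with `t = 1`) and `M = 0`. Bounded: FB.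
Uses MP, LL, FL, FB, YP. -/
def MA_stmt : Prop := ∀ (d n : ℕ) (μ : Fin (n + 1) → ℕ) (b : Fin (n + 1) → ℂ), Wt d μ → Gen b →
  ∀ (I : Type) [Fintype I] (R K : I → ℕ), (∀ i, R i < d ∧ Adm d μ (R i) (K i)) →
  ∀ l : (I → ℂ) →ₗ[ℝ] ℝ, (∀ w ∈ LamG d μ b R K, l w = 0) → ∀ (m : ℤ) (x : ℂ),
    l (zac d R m (fun i => FV d μ b R K x i - FV d μ b R K (b 0) i)) ≤ 0

/-- MZ: a real form which vanishes on all `ζ^m.(F(x) - J_0)` is zero: `l(w) = Re ∑ c_i w_i`; differentiate on the slit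
plane (FD): `∑_i c_i ζ^{-m r_i} g_i(x) = 0` for all `m`; sum over `m` against `ζ^{m r}`: `∑_{r_i = r} c_i x^{k_i} = 0` (common nonzero factor),
so `c_i = 0`. -/
def MZ_stmt : Prop := ∀ (d n : ℕ) (μ : Fin (n + 1) → ℕ) (b : Fin (n + 1) → ℂ), Wt d μ → Gen b →
  ∀ (I : Type) [Fintype I] (R K : I → ℕ), (∀ i, R i < d) →
  (∀ i i', R i = R i' → K i = K i' → i = i') →
  ∀ l : (I → ℂ) →ₗ[ℝ] ℝ, (∀ (m : ℤ) (x : ℂ),
    l (zac d R m (fun i => FV d μ b R K x i - FV d μ b R K (b 0) i)) = 0) → l = 0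

/-- MS: `LamG` spans. Uses MA (for `l` and `-l`), MZ. -/
def MS_stmt : Prop := ∀ (d n : ℕ) (μ : Fin (n + 1) → ℕ) (b : Fin (n + 1) → ℂ), Wt d μ → Gen b →
  ∀ (I : Type) [Fintype I] (R K : I → ℕ), Full d μ R K →
  Submodule.span ℝ (LamG d μ b R K : Set (I → ℂ)) = ⊤

/-! ## E. Existence for all branch points -/

/-- `Lam` is a lattice stable under `ζ.` such that the Abel-Jacobi map (`A`) to `W ⧸ Lam` exists on the curve -/
def GoodLat (d : ℕ) {n : ℕ} (μ : Fin (n + 1) → ℕ) (b : Fin (n + 1) → ℂ) {I : Type} [Fintype I]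
    (R K : I → ℕ) (Lam : AddSubgroup (I → ℂ)) : Prop :=
  IsLattice Lam ∧ (∀ (m : ℤ), ∀ w ∈ Lam, zac d R m w ∈ Lam) ∧ ∃ A : ℂ → ℂ → (I → ℂ),
    ∀ x₀ y₀ : ℂ, fm μ b x₀ ≠ 0 → y₀ ^ d = fm μ b x₀ → ∃ ρ > 0, ∃ φ : ℂ → (I → ℂ),
      ∀ x y : ℂ, ‖x - x₀‖ < ρ → ‖y - y₀‖ < ρ → y ^ d = fm μ b x →
        HasDerivAt φ (omv d μ b R K x y) x ∧ (fun i => A x y i - φ x i) ∈ Lam

/-- EG: the generic case: `A(x, ζ^m Y(x)) = ζ^m.(F(x) - J_0)` (choice of `m`). For `(x, y)` near `(x₀, y₀)` on the curve `y = η(x)`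
(a small ball: two different `d`-th roots of `f(x)` are not close). Uses YP, LL, AA, GS, GL, MS; stability: `zac` is additive and
permutes the generators. -/
def EG_stmt : Prop := ∀ (d n : ℕ) (μ : Fin (n + 1) → ℕ) (b : Fin (n + 1) → ℂ), Wt d μ → Gen b →
  ∀ (I : Type) [Fintype I] (R K : I → ℕ), Full d μ R K → GoodLat d μ b R K (LamG d μ b R K)

/-- EC: a centre with distinct arguments: `o` off the finitely many real lines through two of the `b_j` and different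
from all `b_j` (finitely many lines do not cover the plane). -/
def EC_stmt : Prop := ∀ (n : ℕ) (b : Fin (n + 1) → ℂ), Function.Injective b →
  ∃ o : ℂ, Gen (fun j => b j - o)

/-- ET: translation. `x^k = ∑ C(k,i) o^{k-i} (x - o)^i`: the forms of `b` at `(x, y)` are a triangular invertible linear
transformation (preserving `r`) of those of `b - o` at `(x - o, y)`; transport the lattice and `A`. Uses AA. -/
def ET_stmt : Prop := ∀ (d n : ℕ) (μ : Fin (n + 1) → ℕ) (b : Fin (n + 1) → ℂ) (o : ℂ), Wt d μ →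
  ∀ (I : Type) [Fintype I] (R K : I → ℕ), Full d μ R K → ∀ Lam : AddSubgroup (I → ℂ),
  GoodLat d μ (fun j => b j - o) R K Lam → ∃ Lam', GoodLat d μ b R K Lam'

/-- EX: existence of a lattice for all distinct branch points. Uses EG, EC, ET. -/
def EX_stmt : Prop := ∀ (d n : ℕ) (μ : Fin (n + 1) → ℕ) (b : Fin (n + 1) → ℂ), Wt d μ →
  Function.Injective b → ∀ (I : Type) [Fintype I] (R K : I → ℕ), Full d μ R K →
  ∃ Lam : AddSubgroup (I → ℂ), GoodLat d μ b R K Lam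

/-! ## Q. Complex multiplication -/

/-- QC: `ℂ^I` with a diagonal rational endomorphism with eigenvalues `i λ`, `λ > 0`, has CM. On `ratSpan Lam` the endomorphism `Z` is
semisimple: if `q²` divides its minimal polynomial `p`, then `(p/q)(Z)` is diagonal with square zero on
`W`, so zero (`Module.End.isSemisimple_of_squarefree_aeval_eq_zero`). Then as in dt:CD and dt:CC (Pool/Agent/helper51/DT):
DT.CS, DT.CX, DT.CU, DT.CK, DT.CP, TA5. -/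
def QC_stmt : Prop := ∀ (I : Type) [Fintype I] (Lam : AddSubgroup (I → ℂ)), IsLattice Lam →
  ∀ ν : I → ℂ, (∀ i, (ν i).re = 0 ∧ 0 < (ν i).im) →
  (∀ w ∈ Lam, ∃ N : ℕ, N ≠ 0 ∧ N • (fun i => ν i * w i) ∈ Lam) → Nonempty (CMData (I → ℂ) Lam)

/-- QH: rational elements of the group ring with positive imaginary characters. For
`q₀(g) = ∑_i Im χ_i(g)`: `∑_g q₀(g) χ_{i'}(g) = i |G|/2` (orthogonality; `χ_{i'} ≠ conj χ_i`); approximate `q₀` by a rational function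
`q₁` and take `q(g) = (q₁(g) - q₁(g⁻¹))/2`. -/
def QH_stmt : Prop := ∀ (G : Type) [CommGroup G] [Fintype G] (I : Type) [Fintype I]
  (χ : I → (G →* ℂ)), Function.Injective χ → (∀ i i', ∃ g, χ i g ≠ conj (χ i' g)) →
  ∃ q : G → ℚ, ∀ i, (∑ g, (q g : ℂ) * χ i g).re = 0 ∧ 0 < (∑ g, (q g : ℂ) * χ i g).im

/-- QG: a lattice in `ℂ^I` stable under a finite abelian group acting by characters, all different and
none conjugate to another or to itself, is CM. Uses QC, QH. -/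
def QG_stmt : Prop := ∀ (G : Type) [CommGroup G] [Fintype G] (I : Type) [Fintype I]
  (χ : I → (G →* ℂ)), Function.Injective χ → (∀ i i', ∃ g, χ i g ≠ conj (χ i' g)) →
  ∀ Lam : AddSubgroup (I → ℂ), IsLattice Lam → (∀ g, ∀ w ∈ Lam, (fun i => χ i g * w i) ∈ Lam) →
  Nonempty (CMData (I → ℂ) Lam)

/-- QB: two finite branch points (`n = 1`): every lattice stable under `ζ.` is CM. `G = Multiplicative (ZMod d)`, `χ_i(m) = ζ^{-m r_i}`;
for `n = 1` there is at most one `k` (`k = 0`) for every `r`, and not both `r` and `d - r` occur (`p_r + p_{d-r} = 1`). Uses QG. -/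
def QB_stmt : Prop := ∀ (d : ℕ) (μ : Fin (1 + 1) → ℕ), Wt d μ → ∀ (I : Type) [Fintype I]
  (R K : I → ℕ), Full d μ R K → ∀ Lam : AddSubgroup (I → ℂ), IsLattice Lam →
  (∀ (m : ℤ), ∀ w ∈ Lam, zac d R m w ∈ Lam) → Nonempty (CMData (I → ℂ) Lam)

/-- QR: rotation invariance for `b_j = ε^j`, `ε = exp(2πi/(n+1))`, `μ = 1`: `Y(ε x) = Y(x)`, so `F_{r,k}(ε x) = ε^{k+1} F_{r,k}(x)`. -/
def QR_stmt : Prop := ∀ (d n : ℕ) (r k : ℕ), 0 < d → r < d → ∀ x : ℂ,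
  FF d (fun _ : Fin (n + 1) => 1) (fun j => ze (n + 1) ^ (j : ℕ)) r k (ze (n + 1) * x) =
    ze (n + 1) ^ (k + 1) * FF d (fun _ : Fin (n + 1) => 1) (fun j => ze (n + 1) ^ (j : ℕ)) r k x

/-- QS: the group of the roots of unity is stable under the rotation: `D(J_j - J_0) = (J_{j+1} - J_0) - (J_1 - J_0)`. Uses QR. -/
def QS_stmt : Prop := ∀ (d n : ℕ), 0 < d → ∀ (I : Type) [Fintype I] (R K : I → ℕ), (∀ i, R i < d) →
  ∀ w ∈ LamG d (fun _ : Fin (n + 1) => 1) (fun j => ze (n + 1) ^ (j : ℕ)) R K,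
    (fun i => ze (n + 1) ^ (K i + 1) * w i) ∈
      LamG d (fun _ : Fin (n + 1) => 1) (fun j => ze (n + 1) ^ (j : ℕ)) R K

/-- QZ: the CM point: `y^d = x^{n+1} - 1`. EG, QS, QG with `G = Multiplicative (ZMod d × ZMod (n + 1))`; the characters
`(-r_i, k_i + 1)` are different, and `(-r_i, k_i + 1) ≠ (r_{i'}, -(k_{i'} + 1))` since `r_i + r_{i'} = d` implies
`(k_i + 1) + (k_{i'} + 1) < n + 1`. -/
def QZ_stmt : Prop := ∀ (d n : ℕ), 3 ≤ d → ¬ d ∣ n + 1 → ∀ (I : Type) [Fintype I] (R K : I → ℕ),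
  Full d (fun _ : Fin (n + 1) => 1) R K →
  ∃ Lam : AddSubgroup (I → ℂ),
    GoodLat d (fun _ : Fin (n + 1) => 1) (fun j => ze (n + 1) ^ (j : ℕ)) R K Lam ∧
      Nonempty (CMData (I → ℂ) Lam)

end

end Pool.Agent.HC.SJ3
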